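import Pool.Agent.MP_cd0eb5_co.Defs

namespace Pool.Agent.MP_cd0eb5_co

open Finset Equiv

/-- `c` is a cut position of `σ`. -/
def IsCut {k : ℕ} (σ : Perm (Fin k)) (c : ℕ) : Prop :=
  ∀ a b : Fin k, (a : ℕ) < c → c ≤ (b : ℕ) → σ a < σ b

/-- The sum-indecomposable permutations of length `m + 1`. -/
def basis (m : ℕ) : Set AnyPerm :=
  {x | x.1 = m + 1 ∧ ∀ c, 0 < c → c < x.1 → ¬ IsCut x.2 c}

lemma basis_finite (m : ℕ) : (basis m).Finite := by
  apply Set.Finite.subset (Set.finite_range (fun σ : Perm (Fin (m + 1)) => (⟨m + 1, σ⟩ : AnyPerm)))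
  rintro ⟨k, σ⟩ ⟨hk, _⟩
  simp only at hk
  subst hk
  exact ⟨σ, rfl⟩

lemma basis_nonempty (m : ℕ) : (basis m).Nonempty := by
  refine ⟨⟨m + 1, Fin.revPerm⟩, rfl, ?_⟩
  intro c hc hc' hcut
  have := hcut 0 (Fin.last m) (by simpa using hc) (by simp at hc' ⊢; omega)
  simp at this

lemma exists_pattern {k n : ℕ} (f : Fin k → Fin n) (hf : Function.Injective f) :
    ∃ τ : Perm (Fin k), ∀ a b, τ a < τ b ↔ f a < f b := by
  have hmono : Monotone (f ∘ Tuple.sort f) := Tuple.monotone_sort f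
  have hs : StrictMono (f ∘ Tuple.sort f) :=
    hmono.strictMono_of_injective (hf.comp (Tuple.sort f).injective)
  refine ⟨(Tuple.sort f)⁻¹, fun a b => ?_⟩
  rw [← hs.lt_iff_lt]
  simp

/-- `T` has no cut. -/
def Conn {k : ℕ} (σ : Perm (Fin k)) (T : Finset (Fin k)) : Prop :=
  ∀ c : ℕ, (∃ x ∈ T, (x : ℕ) < c) → (∃ y ∈ T, c ≤ (y : ℕ)) →
    ∃ x ∈ T, ∃ y ∈ T, (x : ℕ) < c ∧ c ≤ (y : ℕ) ∧ σ y < σ x

lemma conn_insert {k : ℕ} {σ : Perm (Fin k)} {T : Finset (Fin k)} (hT : Conn σ T) {z u : Fin k}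
    (hu : u ∈ T) (hinv : (u < z ∧ σ z < σ u) ∨ (z < u ∧ σ u < σ z)) : Conn σ (insert z T) := by
  intro c hx hy
  by_cases h1 : ∃ x ∈ T, (x : ℕ) < c
  · by_cases h2 : ∃ y ∈ T, c ≤ (y : ℕ)
    · obtain ⟨x, hx, y, hy, h⟩ := hT c h1 h2
      exact ⟨x, mem_insert_of_mem hx, y, mem_insert_of_mem hy, h⟩
    · push Not at h2
      obtain ⟨y, hy, hcy⟩ := hy
      rcases mem_insert.1 hy with rfl | hy
      · have huc := h2 u hu
        rcases hinv with ⟨_, h⟩ | ⟨h, _⟩
        · exact ⟨u, mem_insert_of_mem hu, y, mem_insert_self _ _, huc, hcy, h⟩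
        · have : (y : ℕ) < u := h
          omega
      · have := h2 y hy
        omega
  · push Not at h1
    obtain ⟨x, hx, hxc⟩ := hx
    rcases mem_insert.1 hx with rfl | hx
    · have hcu := h1 u hu
      rcases hinv with ⟨h, _⟩ | ⟨_, h⟩
      · have : (u : ℕ) < x := h
        omega
      · exact ⟨x, mem_insert_self _ _, u, mem_insert_of_mem hu, hxc, hcu, h⟩
    · have := h1 x hx
      omega

lemma exists_conn {k m s : ℕ} (σ : Perm (Fin k)) (hs : IsCut σ s) (hsm : s + m < k)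
    (hno : ∀ c, s < c → c ≤ s + m → ¬ IsCut σ c) (j : ℕ) (hj : j ≤ m) :
    ∃ T : Finset (Fin k), T.card = j + 1 ∧ (⟨s, by omega⟩ : Fin k) ∈ T ∧
      (∀ x ∈ T, s ≤ (x : ℕ)) ∧ Conn σ T := by
  classical
  induction j with
  | zero =>
    refine ⟨{⟨s, by omega⟩}, by simp, by simp, by simp, ?_⟩
    intro c hx hy
    simp at hx hy
    omega
  | succ j ih =>
    obtain ⟨T, hcard, hsT, hge, hconn⟩ := ih (by omega)
    have hex : ∃ c : ℕ, s ≤ c ∧ c ≤ s + m ∧ ∀ h : c < k, (⟨c, h⟩ : Fin k) ∉ T := by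
      by_contra hcon
      push Not at hcon
      have hsub : Icc s (s + m) ⊆ T.image (fun x : Fin k => (x : ℕ)) := by
        intro c hc
        obtain ⟨h, hmem⟩ := hcon c (mem_Icc.1 hc).1 (mem_Icc.1 hc).2
        exact mem_image.2 ⟨_, hmem, rfl⟩
      have h1 := card_le_card hsub
      have h2 : (T.image (fun x : Fin k => (x : ℕ))).card ≤ T.card := card_image_le
      rw [Nat.card_Icc] at h1
      omega
    let c := Nat.find hex
    obtain ⟨hsc, hcm, hcT⟩ : s ≤ c ∧ c ≤ s + m ∧ ∀ h : c < k, (⟨c, h⟩ : Fin k) ∉ T :=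
      Nat.find_spec hex
    have hck : c < k := by omega
    have hmin : ∀ x : Fin k, s ≤ (x : ℕ) → (x : ℕ) < c → x ∈ T := by
      intro x h1 h2
      have := Nat.find_min hex h2
      push Not at this
      obtain ⟨_, h⟩ := this h1 (by omega)
      exact h
    have hsc' : s < c := by
      rcases hsc.lt_or_eq with h | h
      · exact h
      · exfalso
        apply hcT hck
        have : (⟨c, hck⟩ : Fin k) = ⟨s, by omega⟩ := Fin.ext h.symm
        rw [this]; exact hsT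
    have hnc := hno c hsc' hcm
    unfold IsCut at hnc
    push Not at hnc
    obtain ⟨x, y, hxc, hcy, hxy⟩ := hnc
    have hne : σ y ≠ σ x := by
      intro h
      have := σ.injective h
      subst this
      omega
    have hyx : σ y < σ x := lt_of_le_of_ne hxy hne
    have hsx : s ≤ (x : ℕ) := by
      by_contra h
      have := hs x y (by omega) (by omega)
      exact absurd this (not_lt.2 hxy)
    have hxT : x ∈ T := hmin x hsx hxc
    have key : ∃ z : Fin k, z ∉ T ∧ s ≤ (z : ℕ) ∧ ∃ u ∈ T,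
        (u < z ∧ σ z < σ u) ∨ (z < u ∧ σ u < σ z) := by
      by_cases hyT : y ∈ T
      · refine ⟨⟨c, hck⟩, hcT hck, hsc, ?_⟩
        have hyc : (⟨c, hck⟩ : Fin k) ≠ y := fun h => hcT hck (h ▸ hyT)
        have hcy' : (⟨c, hck⟩ : Fin k) < y := lt_of_le_of_ne hcy hyc
        rcases lt_or_ge (σ ⟨c, hck⟩) (σ x) with h | h
        · exact ⟨x, hxT, Or.inl ⟨hxc, h⟩⟩
        · exact ⟨y, hyT, Or.inr ⟨hcy', hyx.trans_le h⟩⟩
      · exact ⟨y, hyT, by omega, x, hxT, Or.inl ⟨show (x : ℕ) < y by omega, hyx⟩⟩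
    obtain ⟨z, hzT, hsz, u, hu, hinv⟩ := key
    refine ⟨insert z T, by rw [card_insert_of_notMem hzT, hcard], mem_insert_of_mem hsT, ?_,
      conn_insert hconn hu hinv⟩
    intro w hw
    rcases mem_insert.1 hw with rfl | hw
    · exact hsz
    · exact hge w hw

lemma not_mem_av_of_conn {k m : ℕ} (σ : Perm (Fin k)) (T : Finset (Fin k)) (hcard : T.card = m + 1)
    (hconn : Conn σ T) : (⟨k, σ⟩ : AnyPerm) ∉ Av (basis m) := by
  intro hav
  let e := T.orderEmbOfFin hcard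
  obtain ⟨τ, hτ⟩ := exists_pattern (fun a => σ (e a)) (σ.injective.comp e.injective)
  refine hav ⟨m + 1, τ⟩ ⟨rfl, ?_⟩ ⟨e, e.strictMono, hτ⟩
  intro c hc hc' hcut
  simp only at hc' hcut
  have hmem : ∀ a, e a ∈ T := fun a => orderEmbOfFin_mem T hcard a
  have hsurj : ∀ x ∈ T, ∃ a, e a = x := by
    intro x hx
    have : x ∈ Set.range e := by
      rw [range_orderEmbOfFin]; exact hx
    exact this
  obtain ⟨x, hx, y, hy, hxc, hcy, hlt⟩ := hconn (e ⟨c, hc'⟩)
    ⟨e 0, hmem 0, e.strictMono (show (0 : Fin (m + 1)) < ⟨c, hc'⟩ from hc)⟩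
    ⟨e ⟨c, hc'⟩, hmem _, le_rfl⟩
  obtain ⟨a, rfl⟩ := hsurj x hx
  obtain ⟨b, rfl⟩ := hsurj y hy
  have ha : a < ⟨c, hc'⟩ := e.lt_iff_lt.1 hxc
  have hb : (⟨c, hc'⟩ : Fin (m + 1)) ≤ b := e.le_iff_le.1 hcy
  have := (hτ a b).1 (hcut a b ha hb)
  exact absurd this (not_lt.2 hlt.le)

lemma exists_start {k m : ℕ} (σ : Perm (Fin k)) (hσ : (⟨k, σ⟩ : AnyPerm) ∈ Av (basis m)) :
    ∃ s : Fin k → ℕ, Monotone s ∧ (∀ a, s a ≤ (a : ℕ) ∧ (a : ℕ) < s a + m) ∧
      ∀ a b, s a < s b → σ a < σ b := by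
  classical
  have h0 : IsCut σ 0 := fun a b h => absurd h (Nat.not_lt_zero _)
  have hcut : ∀ a : ℕ, IsCut σ (Nat.findGreatest (IsCut σ) a) := fun a =>
    Nat.findGreatest_spec (Nat.zero_le a) h0
  refine ⟨fun a => Nat.findGreatest (IsCut σ) a, ?_, fun a => ⟨Nat.findGreatest_le _, ?_⟩, ?_⟩
  · intro a b hab
    exact Nat.findGreatest_mono_right _ hab
  · by_contra hcon
    push Not at hcon
    have hak := a.isLt
    obtain ⟨T, hcard, -, -, hconn⟩ := exists_conn (m := m) σ (hcut a) (by omega)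
      (fun c h1 h2 => Nat.findGreatest_is_greatest h1 (by omega)) m le_rfl
    exact not_mem_av_of_conn σ T hcard hconn hσ
  · intro a b hab
    simp only at hab
    apply hcut b a b _ (Nat.findGreatest_le _)
    by_contra hcon
    push Not at hcon
    have := Nat.le_findGreatest hcon (hcut b)
    omega

lemma exists_subseq {n m l : ℕ} (π : Perm (Fin n)) (hl : 0 < l)
    (h : l ≤ longestSubseq (Av (basis m)) π) :
    ∃ (e : Fin l → Fin n) (s : Fin l → ℕ), StrictMono e ∧ Monotone s ∧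
      (∀ a, s a ≤ (a : ℕ) ∧ (a : ℕ) < s a + m) ∧ ∀ a b, s a < s b → π (e a) < π (e b) := by
  set S := {k : ℕ | ∃ σ : Perm (Fin k), (⟨k, σ⟩ : AnyPerm) ∈ Av (basis m) ∧ Contains π σ} with hS
  have hne : S.Nonempty := by
    by_contra hcon
    rw [Set.not_nonempty_iff_eq_empty] at hcon
    unfold longestSubseq at h
    rw [← hS, hcon] at h
    simp at h
    omega
  have hbdd : BddAbove S := by
    refine ⟨n, ?_⟩
    rintro k ⟨σ, -, e, he, -⟩
    simpa using Fintype.card_le_of_injective e he.injective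
  obtain ⟨σ, hσ, e, he, hpat⟩ := Nat.sSup_mem hne hbdd
  obtain ⟨s, hs, hs2, hs3⟩ := exists_start σ hσ
  have hle : l ≤ sSup S := h
  refine ⟨fun a => e (Fin.castLE hle a), fun a => s (Fin.castLE hle a), ?_, ?_, ?_, ?_⟩
  · exact he.comp (Fin.strictMono_castLE hle)
  · exact hs.comp (Fin.strictMono_castLE hle).monotone
  · intro a
    exact hs2 (Fin.castLE hle a)
  · intro a b hab
    exact (hpat _ _).1 (hs3 _ _ hab)

lemma longestSubseq_le (A : Set AnyPerm) {n : ℕ} (π : Perm (Fin n)) : longestSubseq A π ≤ n := by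
  unfold longestSubseq
  apply csSup_le'
  rintro k ⟨σ, -, e, he, -⟩
  simpa using Fintype.card_le_of_injective e he.injective

/-- The direct sum of `k` permutations of length `m`. -/
def blockPerm {k m : ℕ} (g : Fin k → Perm (Fin m)) : Perm (Fin (k * m)) :=
  finProdFinEquiv.permCongr (Equiv.prodCongrRight g)

lemma blockPerm_injective {k m : ℕ} : Function.Injective (blockPerm (k := k) (m := m)) := by
  intro g g' h
  have h1 := finProdFinEquiv.permCongr.injective h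
  funext a
  ext b
  have := congrArg (fun e : Fin k × Fin m ≃ Fin k × Fin m => (e (a, b)).2) h1
  simp only [prodCongrRight_apply] at this
  rw [this]

lemma blockPerm_div {k m : ℕ} (hm : 0 < m) (g : Fin k → Perm (Fin m)) (x : Fin (k * m)) :
    (blockPerm g x : ℕ) / m = (x : ℕ) / m := by
  obtain ⟨⟨a, b⟩, rfl⟩ := finProdFinEquiv.surjective x
  simp only [blockPerm, permCongr_apply, symm_apply_apply, prodCongrRight_apply,
    finProdFinEquiv_apply_val]
  rw [Nat.add_mul_div_left _ _ hm, Nat.add_mul_div_left _ _ hm, Nat.div_eq_of_lt (g a b).isLt,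
    Nat.div_eq_of_lt b.isLt]

lemma blockPerm_cut {k m : ℕ} (hm : 0 < m) (g : Fin k → Perm (Fin m)) (σ : Perm (Fin (m + 1)))
    (e : Fin (m + 1) → Fin (k * m)) (he : StrictMono e)
    (hpat : ∀ a b, σ a < σ b ↔ blockPerm g (e a) < blockPerm g (e b)) :
    ∃ c, 0 < c ∧ c < m + 1 ∧ IsCut σ c := by
  classical
  have hgrow : ∀ a : ℕ, ∀ h : a < m + 1, (e 0 : ℕ) + a ≤ e ⟨a, h⟩ := by
    intro a
    induction a with
    | zero => intro h; exact le_of_eq rfl
    | succ a ih =>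
      intro h
      have h' : a < m + 1 := by omega
      have h1 := ih h'
      have h2 : (e ⟨a, h'⟩ : ℕ) < e ⟨a + 1, h⟩ := he (show a < a + 1 by omega)
      omega
  have hex : ∃ c : ℕ, ∃ h : c < m + 1, (e 0 : ℕ) / m < (e ⟨c, h⟩ : ℕ) / m := by
    have h' : m < m + 1 := by omega
    refine ⟨m, h', ?_⟩
    have h1 := hgrow m h'
    have h2 : ((e 0 : ℕ) + m) / m ≤ (e ⟨m, h'⟩ : ℕ) / m := Nat.div_le_div_right h1
    rw [Nat.add_div_right _ hm] at h2
    omega
  obtain ⟨c, ⟨hc, hlt⟩, hmin⟩ : ∃ c : ℕ, (∃ h : c < m + 1, (e 0 : ℕ) / m < (e ⟨c, h⟩ : ℕ) / m) ∧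
      ∀ d < c, ¬ ∃ h : d < m + 1, (e 0 : ℕ) / m < (e ⟨d, h⟩ : ℕ) / m :=
    ⟨Nat.find hex, Nat.find_spec hex, fun d hd => Nat.find_min hex hd⟩
  have hc0 : 0 < c := by
    rcases Nat.eq_zero_or_pos c with h | h
    · exfalso
      have : (⟨c, hc⟩ : Fin (m + 1)) = 0 := Fin.ext h
      rw [this] at hlt
      exact lt_irrefl _ hlt
    · exact h
  refine ⟨c, hc0, hc, ?_⟩
  intro a b ha hb
  rw [hpat]
  have h1 : (e a : ℕ) / m ≤ (e 0 : ℕ) / m := by
    have := hmin a ha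
    push Not at this
    exact this a.isLt
  have h2 : (e ⟨c, hc⟩ : ℕ) / m ≤ (e b : ℕ) / m :=
    Nat.div_le_div_right (he.monotone (show (⟨c, hc⟩ : Fin (m + 1)) ≤ b from hb))
  have h3 : (blockPerm g (e a) : ℕ) / m < (blockPerm g (e b) : ℕ) / m := by
    rw [blockPerm_div hm, blockPerm_div hm]; omega
  exact Nat.lt_of_div_lt_div h3

lemma blockPerm_mem {k m : ℕ} (hm : 0 < m) (g : Fin k → Perm (Fin m)) :
    (⟨k * m, blockPerm g⟩ : AnyPerm) ∈ Av (basis m) := by
  rintro ⟨j, σ⟩ ⟨hj, hind⟩ ⟨e, he, hpat⟩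
  simp only at hj
  subst hj
  obtain ⟨c, h1, h2, h3⟩ := blockPerm_cut hm g σ e he hpat
  exact hind c h1 h2 h3

lemma count_ge {k m : ℕ} (hm : 0 < m) :
    m.factorial ^ k ≤ countOfLength (Av (basis m)) (k * m) := by
  classical
  unfold countOfLength
  have h1 : (Set.univ : Set (Fin k → Perm (Fin m))).ncard = m.factorial ^ k := by
    rw [Set.ncard_univ, Nat.card_eq_fintype_card]
    simp [Fintype.card_perm]
  rw [← h1]
  apply Set.ncard_le_ncard_of_injOn blockPerm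
  · intro g _
    exact blockPerm_mem hm g
  · exact blockPerm_injective.injOn

end Pool.Agent.MP_cd0eb5_co
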