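import Mathlib

namespace Pool.Agent.MP_cd0eb5_co

open Filter
open scoped ENNReal

/-- A permutation of an arbitrary finite length `n`, as a bijection of `Fin n`. -/
abbrev AnyPerm : Type := Σ n : ℕ, Equiv.Perm (Fin n)

/-- `π` contains the pattern `σ`: some subsequence of `π` is order-isomorphic to `σ`. -/
def Contains {n k : ℕ} (π : Equiv.Perm (Fin n)) (σ : Equiv.Perm (Fin k)) : Prop :=
  ∃ e : Fin k → Fin n, StrictMono e ∧ ∀ a b, σ a < σ b ↔ π (e a) < π (e b)

/-- The class of all permutations containing no element of `B`. -/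
def Av (B : Set AnyPerm) : Set AnyPerm :=
  {π | ∀ σ ∈ B, ¬ Contains π.2 σ.2}

/-- The number of permutations of length `n` in `A`. -/
noncomputable def countOfLength (A : Set AnyPerm) (n : ℕ) : ℕ :=
  {π : Equiv.Perm (Fin n) | (⟨n, π⟩ : AnyPerm) ∈ A}.ncard

/-- The maximum size of a subsequence of `π` whose pattern lies in `A`. -/
noncomputable def longestSubseq (A : Set AnyPerm) {n : ℕ} (π : Equiv.Perm (Fin n)) : ℕ :=
  sSup {k : ℕ | ∃ σ : Equiv.Perm (Fin k), (⟨k, σ⟩ : AnyPerm) ∈ A ∧ Contains π σ}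

/-- The mean of `longestSubseq A` over a uniformly random permutation of length `n`. -/
noncomputable def meanLongestSubseq (A : Set AnyPerm) (n : ℕ) : ℝ :=
  (∑ π : Equiv.Perm (Fin n), (longestSubseq A π : ℝ)) / (n.factorial : ℝ)

/-- The upper growth rate `s_A`. -/
noncomputable def sConst (A : Set AnyPerm) : ℝ≥0∞ :=
  limsup (fun n : ℕ => (countOfLength A n : ℝ≥0∞) ^ ((1 : ℝ) / n)) atTop

/-- The constant `c_A`, defined by `2 √c_A = limsup E[L_A] / √n`. -/
noncomputable def cConst (A : Set AnyPerm) : ℝ≥0∞ :=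
  (limsup (fun n : ℕ => ENNReal.ofReal (meanLongestSubseq A n / √(n : ℝ))) atTop / 2) ^ 2

end Pool.Agent.MP_cd0eb5_co
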