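import Mathlib

namespace Pool.Agent.MP_cd0eb5_co

open Finset Equiv

variable {n : ℕ}

/-- The graph of a permutation as a finite set of points. -/
def graph (π : Perm (Fin n)) : Finset (Fin n × Fin n) :=
  univ.filter (fun p => π p.1 = p.2)

/-- The number of points of `π` in the region `U`. -/
def hits (U : Finset (Fin n × Fin n)) (π : Perm (Fin n)) : ℕ :=
  (U.filter (fun p => π p.1 = p.2)).card

lemma card_fix (T : Finset (Fin n)) :
    (univ.filter (fun π : Perm (Fin n) => ∀ a ∈ T, π a = a)).card = (n - T.card).factorial := by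
  classical
  have e := Equiv.Perm.subtypeEquivSubtypePerm (fun a : Fin n => a ∉ T)
  have h1 : Fintype.card (Perm {a : Fin n // a ∉ T}) = (n - T.card).factorial := by
    rw [Fintype.card_perm]
    congr 1
    simp [Fintype.card_subtype_compl]
  rw [← h1, Fintype.card_congr e, Fintype.card_subtype]
  congr 1
  ext π
  simp

lemma card_contain (S : Finset (Fin n × Fin n)) :
    (univ.filter (fun π : Perm (Fin n) => ∀ p ∈ S, π p.1 = p.2)).card ≤ (n - S.card).factorial := by
  classical
  rcases (univ.filter (fun π : Perm (Fin n) => ∀ p ∈ S, π p.1 = p.2)).eq_empty_or_nonempty with h | ⟨π₀, h⟩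
  · rw [h]; simp
  · have h0 : ∀ p ∈ S, π₀ p.1 = p.2 := by simpa using h
    have hinj : Set.InjOn (fun p : Fin n × Fin n => p.1) S := by
      intro p hp q hq hpq
      have h1 := h0 p hp
      have h2 := h0 q hq
      simp only at hpq
      apply Prod.ext hpq
      rw [← h1, ← h2, hpq]
    have hc : (S.image (fun p => p.1)).card = S.card := card_image_of_injOn hinj
    rw [← hc, ← card_fix]
    apply card_le_card_of_injOn (fun π => π₀⁻¹ * π)
    · intro π hπ
      have hπ' : ∀ p ∈ S, π p.1 = p.2 := by simpa using hπ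
      simp only [coe_filter, mem_univ, true_and, Set.mem_ofPred_eq]
      intro a ha
      obtain ⟨p, hp, rfl⟩ := mem_image.1 ha
      simp only [Perm.coe_mul, Function.comp_apply]
      rw [hπ' p hp, ← h0 p hp]
      simp
    · intro a _ b _ hab
      exact mul_left_cancel hab

lemma sum_choose_hits (U : Finset (Fin n × Fin n)) (j : ℕ) :
    ∑ π : Perm (Fin n), (hits U π).choose j ≤ U.card.choose j * (n - j).factorial := by
  classical
  have h1 : ∀ π : Perm (Fin n), (hits U π).choose j =
      ∑ S ∈ U.powersetCard j, if (∀ p ∈ S, π p.1 = p.2) then 1 else 0 := by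
    intro π
    rw [hits, ← card_powersetCard, ← card_filter]
    congr 1
    ext S
    simp only [mem_powersetCard, mem_filter, subset_iff]
    constructor
    · rintro ⟨h, hc⟩
      exact ⟨⟨fun x hx => (h hx).1, hc⟩, fun p hp => (h hp).2⟩
    · rintro ⟨⟨h, hc⟩, h2⟩
      exact ⟨fun x hx => ⟨h hx, h2 x hx⟩, hc⟩
  simp_rw [h1]
  rw [sum_comm, ← card_powersetCard, ← smul_eq_mul, ← sum_const]
  apply sum_le_sum
  intro S hS
  rw [← card_filter]
  have := card_contain S
  rwa [(mem_powersetCard.1 hS).2] at this

lemma factorial_sub_mul_le {k j : ℕ} (hj : j ≤ k) (hk : k ≤ n) :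
    (n - j).factorial * (n - k) ^ j ≤ n.factorial := by
  rw [← Nat.factorial_mul_descFactorial (hj.trans hk)]
  apply Nat.mul_le_mul_left
  exact (Nat.pow_le_pow_left (by omega) j).trans (Nat.pow_sub_le_descFactorial n j)

/-- Exponential-moment tail bound for the number of points of a random permutation in `U`. -/
lemma tail_bound (U : Finset (Fin n × Fin n)) {k l : ℕ} (hkl : k ≤ l) (hl : l < n) {t : ℝ}
    (ht : 0 ≤ t) :
    ((univ.filter (fun π : Perm (Fin n) => k ≤ hits U π)).card : ℝ) * (1 + t) ^ k
      ≤ n.factorial * Real.exp (t * U.card / ((n : ℝ) - l)) := by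
  classical
  have hnl : (0 : ℝ) < (n : ℝ) - l := by
    have : (l : ℝ) < n := by exact_mod_cast hl
    linarith
  have step1 : ((univ.filter (fun π : Perm (Fin n) => k ≤ hits U π)).card : ℝ) * (1 + t) ^ k
      ≤ ∑ π : Perm (Fin n), ∑ j ∈ range (k + 1), t ^ j * ((hits U π).choose j : ℝ) := by
    rw [← nsmul_eq_mul, ← sum_const]
    calc ∑ π ∈ univ.filter (fun π : Perm (Fin n) => k ≤ hits U π), (1 + t) ^ k
        ≤ ∑ π ∈ univ.filter (fun π : Perm (Fin n) => k ≤ hits U π),
            ∑ j ∈ range (k + 1), t ^ j * ((hits U π).choose j : ℝ) := by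
          apply sum_le_sum
          intro π hπ
          have hk : k ≤ hits U π := (mem_filter.1 hπ).2
          rw [add_comm, add_pow]
          apply sum_le_sum
          intro j _
          rw [one_pow, mul_one]
          apply mul_le_mul_of_nonneg_left _ (pow_nonneg ht j)
          exact_mod_cast Nat.choose_le_choose j hk
      _ ≤ _ := by
          apply sum_le_sum_of_subset_of_nonneg (filter_subset _ _)
          intro π _ _
          apply sum_nonneg
          intro j _
          positivity
  refine step1.trans ?_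
  rw [sum_comm]
  have hx : 0 ≤ t * U.card / ((n : ℝ) - l) := by positivity
  refine le_trans ?_ (mul_le_mul_of_nonneg_left (Real.sum_le_exp_of_nonneg hx (k + 1))
    (by positivity))
  rw [mul_sum]
  apply sum_le_sum
  intro j hj
  have hjk : j ≤ k := by have := mem_range.1 hj; omega
  rw [← mul_sum]
  have h1 : (∑ π : Perm (Fin n), ((hits U π).choose j : ℝ))
      ≤ (U.card.choose j : ℝ) * ((n - j).factorial : ℝ) := by
    exact_mod_cast sum_choose_hits U j
  have h2 : (((n - j).factorial : ℕ) : ℝ) * ((n : ℝ) - l) ^ j ≤ n.factorial := by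
    have := factorial_sub_mul_le (n := n) (hjk.trans hkl) hl.le
    have h3 : ((n : ℝ) - l) = ((n - l : ℕ) : ℝ) := by
      rw [Nat.cast_sub hl.le]
    rw [h3]
    exact_mod_cast this
  have h3 : (U.card.choose j : ℝ) ≤ (U.card : ℝ) ^ j / j.factorial := Nat.choose_le_pow_div j U.card
  have h4 : (((n - j).factorial : ℕ) : ℝ) ≤ n.factorial / ((n : ℝ) - l) ^ j := by
    rw [le_div_iff₀ (pow_pos hnl j)]; exact h2
  calc t ^ j * ∑ π : Perm (Fin n), ((hits U π).choose j : ℝ)
      ≤ t ^ j * (((U.card : ℝ) ^ j / j.factorial) * (n.factorial / ((n : ℝ) - l) ^ j)) := by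
        apply mul_le_mul_of_nonneg_left _ (pow_nonneg ht j)
        refine h1.trans ?_
        apply mul_le_mul h3 h4 (by positivity) (by positivity)
    _ = n.factorial * ((t * U.card / ((n : ℝ) - l)) ^ j / j.factorial) := by
        rw [div_pow, mul_pow]
        field_simp

end Pool.Agent.MP_cd0eb5_co
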