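import Pool.Agent.MP_cd0eb5_co.Blocks
import Pool.Agent.MP_cd0eb5_co.Tail

namespace Pool.Agent.MP_cd0eb5_co

open Finset Equiv

/-- Monotone sequences of length `r + 1` with values at most `K`. -/
noncomputable def seqs (r K : ℕ) : Finset (Fin (r + 1) → ℕ) := by
  classical
  exact (Fintype.piFinset (fun _ => range (K + 1))).filter Monotone

lemma mem_seqs {r K : ℕ} {X : Fin (r + 1) → ℕ} :
    X ∈ seqs r K ↔ (∀ v, X v ≤ K) ∧ Monotone X := by
  classical
  unfold seqs
  simp [Fintype.mem_piFinset]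

lemma card_seqs (r K : ℕ) : (seqs r K).card ≤ 2 ^ (K + r + 1) := by
  classical
  have h : (range (K + r + 1)).powerset.card = 2 ^ (K + r + 1) := by simp
  rw [← h]
  have hsm : ∀ X : Fin (r + 1) → ℕ, Monotone X → StrictMono (fun v : Fin (r + 1) => X v + v) := by
    intro X hX a b hab
    have h1 := hX hab.le
    have h2 : (a : ℕ) < b := hab
    simp only
    omega
  apply card_le_card_of_injOn
    (fun X : Fin (r + 1) → ℕ => univ.image (fun v : Fin (r + 1) => X v + (v : ℕ)))
  · intro X hX
    obtain ⟨h1, -⟩ := mem_seqs.1 hX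
    simp only [coe_powerset, coe_range, Set.mem_preimage, coe_image, coe_univ, Set.image_univ,
      Set.mem_powerset_iff]
    rintro _ ⟨v, rfl⟩
    have := h1 v
    have := v.isLt
    simp only [Set.mem_Iio]
    omega
  · intro X hX Y hY hXY
    obtain ⟨-, h1⟩ := mem_seqs.1 hX
    obtain ⟨-, h2⟩ := mem_seqs.1 hY
    have h3 : Set.range (fun v : Fin (r + 1) => X v + v) =
        Set.range (fun v : Fin (r + 1) => Y v + v) := by
      have := congrArg (fun s : Finset ℕ => (s : Set ℕ)) hXY
      simpa using this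
    have h4 := ((hsm X h1).range_inj (hsm Y h2)).1 h3
    funext v
    have h5 : X v + (v : ℕ) = Y v + (v : ℕ) := congrFun h4 v
    omega

/-- A rectangle of grid cells of side `w`. -/
def rect (n w a b c d : ℕ) : Finset (Fin n × Fin n) :=
  univ.filter (fun p => (a ≤ (p.1 : ℕ) / w ∧ (p.1 : ℕ) / w ≤ b) ∧
    (c ≤ (p.2 : ℕ) / w ∧ (p.2 : ℕ) / w ≤ d))

lemma card_strip (n a b : ℕ) {w : ℕ} (hw : 0 < w) :
    (univ.filter (fun i : Fin n => a ≤ (i : ℕ) / w ∧ (i : ℕ) / w ≤ b)).card ≤ (b + 1 - a) * w := by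
  have h : (Ico (a * w) ((b + 1) * w)).card = (b + 1 - a) * w := by
    rw [Nat.card_Ico, Nat.sub_mul]
  rw [← h]
  apply card_le_card_of_injOn (fun i : Fin n => (i : ℕ))
  · intro i hi
    simp only [coe_filter, mem_univ, true_and, Set.mem_ofPred_eq] at hi
    simp only [coe_Ico, Set.mem_Ico]
    exact ⟨(Nat.le_div_iff_mul_le hw).1 hi.1, (Nat.div_lt_iff_lt_mul hw).1 (by omega)⟩
  · intro i _ j _ hij
    exact Fin.ext hij

lemma card_rect (n a b c d : ℕ) {w : ℕ} (hw : 0 < w) :
    (rect n w a b c d).card ≤ ((b + 1 - a) * w) * ((d + 1 - c) * w) := by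
  have h : rect n w a b c d =
      (univ.filter (fun i : Fin n => a ≤ (i : ℕ) / w ∧ (i : ℕ) / w ≤ b)) ×ˢ
      (univ.filter (fun i : Fin n => c ≤ (i : ℕ) / w ∧ (i : ℕ) / w ≤ d)) := by
    ext p
    simp [rect]
  rw [h, card_product]
  exact Nat.mul_le_mul (card_strip n a b hw) (card_strip n c d hw)

/-- The side length of the `v`-th interval. -/
def len {r : ℕ} (X : Fin (r + 1) → ℕ) (v : Fin r) : ℕ := X v.succ + 1 - X v.castSucc

/-- The indices of big rectangles. -/
def big {r : ℕ} (T : ℕ) (X Y : Fin (r + 1) → ℕ) : Finset (Fin r) :=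
  univ.filter (fun v => T ≤ len X v + len Y v)

/-- The union of the small rectangles. -/
def region (n w : ℕ) {r : ℕ} (T : ℕ) (X Y : Fin (r + 1) → ℕ) : Finset (Fin n × Fin n) :=
  (univ.filter (fun v => ¬ T ≤ len X v + len Y v)).biUnion
    (fun v => rect n w (X v.castSucc) (X v.succ) (Y v.castSucc) (Y v.succ))

lemma sum_len {r K : ℕ} {X : Fin (r + 1) → ℕ} (hX : X ∈ seqs r K) :
    ∑ v, (len X v : ℝ) ≤ K + r := by
  obtain ⟨h1, h2⟩ := mem_seqs.1 hX
  have h3 : ∀ v : Fin r, (len X v : ℝ) = (X v.succ : ℝ) - X v.castSucc + 1 := by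
    intro v
    have : X v.castSucc ≤ X v.succ := h2 (Fin.castSucc_lt_succ (i := v)).le
    unfold len
    rw [Nat.cast_sub (by omega)]
    push_cast
    ring
  simp_rw [h3]
  rw [sum_add_distrib, sum_sub_distrib]
  have h4 := Fin.sum_univ_succ (fun v => (X v : ℝ))
  have h5 := Fin.sum_univ_castSucc (fun v => (X v : ℝ))
  have h6 : (X (Fin.last r) : ℝ) ≤ K := by exact_mod_cast h1 _
  have h7 : (0 : ℝ) ≤ X 0 := by positivity
  simp only [sum_const, card_univ, Fintype.card_fin, nsmul_eq_mul, mul_one]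
  linarith

lemma exists_seqs {n m l h w r : ℕ} (T : ℕ) (hh : 0 < h) (hr : l ≤ r * h) (π : Perm (Fin n))
    (e : Fin l → Fin n) (s : Fin l → ℕ) (he : StrictMono e) (hs : Monotone s)
    (hs2 : ∀ a, s a ≤ (a : ℕ) ∧ (a : ℕ) < s a + m) (hs3 : ∀ a b, s a < s b → π (e a) < π (e b)) :
    ∃ X ∈ seqs r (n / w), ∃ Y ∈ seqs r (n / w),
      l ≤ (h + m) * (big T X Y).card + hits (region n w T X Y) π := by
  classical
  have hg : ∀ a, s a / h < r := by
    intro a
    rw [Nat.div_lt_iff_lt_mul hh]
    have := (hs2 a).1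
    have := a.isLt
    omega
  let g : Fin l → Fin r := fun a => ⟨s a / h, hg a⟩
  let F : (Fin l → Fin n) → Fin (r + 1) → ℕ := fun f v =>
    (univ.filter (fun a => s a / h < (v : ℕ))).sup (fun a => (f a : ℕ) / w)
  have hF : ∀ f, F f ∈ seqs r (n / w) := by
    intro f
    rw [mem_seqs]
    constructor
    · intro v
      apply Finset.sup_le
      intro a _
      exact Nat.div_le_div_right (f a).isLt.le
    · intro u v huv
      apply Finset.sup_mono
      intro a ha
      simp only [mem_filter, mem_univ, true_and] at ha ⊢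
      exact lt_of_lt_of_le ha huv
  have hFbd : ∀ f : Fin l → Fin n, (∀ a b, s a < s b → f a < f b) → ∀ a,
      F f (g a).castSucc ≤ (f a : ℕ) / w ∧ (f a : ℕ) / w ≤ F f (g a).succ := by
    intro f hf a
    constructor
    · apply Finset.sup_le
      intro b hb
      simp only [mem_filter, mem_univ, true_and, Fin.val_castSucc, g] at hb
      exact Nat.div_le_div_right (hf b a (Nat.lt_of_div_lt_div hb)).le
    · apply Finset.le_sup (f := fun a => (f a : ℕ) / w)
      simp [g]
  have he' : ∀ a b, s a < s b → e a < e b := by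
    intro a b hab
    apply he
    by_contra hcon
    exact absurd (hs (not_lt.1 hcon)) (not_le.2 hab)
  refine ⟨F e, hF e, F (fun a => π (e a)), hF _, ?_⟩
  set X := F e
  set Y := F (fun a => π (e a))
  have hsplit := card_filter_add_card_filter_not (s := (univ : Finset (Fin l)))
    (fun a => g a ∈ big T X Y)
  simp only [card_univ, Fintype.card_fin] at hsplit
  have h1 : (univ.filter (fun a => g a ∈ big T X Y)).card ≤ (h + m) * (big T X Y).card := by
    apply card_le_mul_card_image_of_maps_to (f := g)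
    · intro a ha
      exact (mem_filter.1 ha).2
    · intro v _
      have hc : (Ico ((v : ℕ) * h) ((v : ℕ) * h + (h + m))).card = h + m := by simp
      rw [← hc]
      apply card_le_card_of_injOn (fun a : Fin l => (a : ℕ))
      · intro a ha
        simp only [coe_filter, mem_filter, mem_univ, true_and, Set.mem_ofPred_eq] at ha
        have h2 : s a / h = v := congrArg Fin.val ha.2
        have h3 := hs2 a
        have h4 := Nat.div_add_mod (s a) h
        have h5 := Nat.mod_lt (s a) hh
        rw [h2, mul_comm] at h4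
        simp only [coe_Ico, Set.mem_Ico]
        omega
      · intro a _ b _ hab
        exact Fin.ext hab
  have h2 : (univ.filter (fun a => ¬ g a ∈ big T X Y)).card ≤ hits (region n w T X Y) π := by
    unfold hits
    apply card_le_card_of_injOn (fun a => (e a, π (e a)))
    · intro a ha
      simp only [coe_filter, mem_univ, true_and, Set.mem_ofPred_eq, big, mem_filter] at ha
      simp only [coe_filter, Set.mem_ofPred_eq, and_true, region, mem_biUnion, mem_filter, mem_univ,
        true_and]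
      refine ⟨g a, ha, ?_⟩
      simp only [rect, mem_filter, mem_univ, true_and]
      exact ⟨hFbd e he' a, hFbd (fun a => π (e a)) hs3 a⟩
    · intro a _ b _ hab
      exact he.injective (congrArg Prod.fst hab)
  omega

lemma exponent_le {n w r K T M : ℕ} {X Y : Fin (r + 1) → ℕ} (hX : X ∈ seqs r K) (hY : Y ∈ seqs r K)
    (hw : 0 < w) {β D : ℝ} (hD : 0 < D) (hβ : 0 ≤ β) (h1 : (M : ℝ) ≤ β * T / 2)
    (h2 : (w : ℝ) ^ 2 * T ≤ 2 * β * D) :
    (M : ℝ) * (big T X Y).card + (region n w T X Y).card / D ≤ β * (K + r) := by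
  have ha : (M : ℝ) * (big T X Y).card ≤
      ∑ v ∈ univ.filter (fun v => T ≤ len X v + len Y v), β * ((len X v : ℝ) + len Y v) / 2 := by
    rw [mul_comm, ← nsmul_eq_mul, ← sum_const]
    apply sum_le_sum
    intro v hv
    have : (T : ℝ) ≤ (len X v : ℝ) + len Y v := by exact_mod_cast (mem_filter.1 hv).2
    have := mul_le_mul_of_nonneg_left this hβ
    linarith
  have hb : ((region n w T X Y).card : ℝ) / D ≤
      ∑ v ∈ univ.filter (fun v => ¬ T ≤ len X v + len Y v),
        β * ((len X v : ℝ) + len Y v) / 2 := by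
    have h3 : ((region n w T X Y).card : ℝ) ≤
        ∑ v ∈ univ.filter (fun v => ¬ T ≤ len X v + len Y v),
          ((rect n w (X v.castSucc) (X v.succ) (Y v.castSucc) (Y v.succ)).card : ℝ) := by
      exact_mod_cast card_biUnion_le
    rw [div_le_iff₀ hD, sum_mul]
    refine h3.trans (sum_le_sum ?_)
    intro v hv
    have h4 : (len X v : ℝ) + len Y v ≤ T := by
      have := (mem_filter.1 hv).2
      exact_mod_cast (not_le.1 this).le
    have h5 : ((rect n w (X v.castSucc) (X v.succ) (Y v.castSucc) (Y v.succ)).card : ℝ) ≤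
        ((len X v : ℝ) * w) * ((len Y v : ℝ) * w) := by
      exact_mod_cast card_rect n (X v.castSucc) (X v.succ) (Y v.castSucc) (Y v.succ) hw
    refine h5.trans ?_
    set x : ℝ := (len X v : ℝ)
    set y : ℝ := (len Y v : ℝ)
    have hx : 0 ≤ x := by positivity
    have hy : 0 ≤ y := by positivity
    have h6 : x * y ≤ T * (x + y) / 4 := by nlinarith [sq_nonneg (x - y)]
    have h7 : (w : ℝ) ^ 2 * (x * y) ≤ (w : ℝ) ^ 2 * (T * (x + y) / 4) :=
      mul_le_mul_of_nonneg_left h6 (by positivity)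
    have h8 := mul_le_mul_of_nonneg_right h2 (add_nonneg hx hy)
    nlinarith
  have hc := sum_filter_add_sum_filter_not univ (fun v => T ≤ len X v + len Y v)
    (fun v => β * ((len X v : ℝ) + len Y v) / 2)
  have hd : ∑ v, β * ((len X v : ℝ) + len Y v) / 2 ≤ β * (K + r) := by
    rw [← sum_div, ← mul_sum, sum_add_distrib]
    have := mul_le_mul_of_nonneg_left (add_le_add (sum_len hX) (sum_len hY)) hβ
    linarith
  linarith

lemma union_bound {n m l h w r T : ℕ} (hl : 0 < l) (hln : l < n) (hh : 0 < h) (hw : 0 < w)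
    (hr : l ≤ r * h) {β t : ℝ} (ht : 0 ≤ t) (hβ : 0 ≤ β) (h1 : ((h + m : ℕ) : ℝ) ≤ β * T / 2)
    (h2 : (w : ℝ) ^ 2 * T ≤ 2 * β * ((n : ℝ) - l)) :
    ((univ.filter (fun π : Perm (Fin n) => l ≤ longestSubseq (Av (basis m)) π)).card : ℝ)
        * (1 + t) ^ l
      ≤ 4 ^ (n / w + r + 1) * (n.factorial * Real.exp (t * (β * ((n / w : ℕ) + r)))) := by
  classical
  have hD : (0 : ℝ) < (n : ℝ) - l := by
    have : (l : ℝ) < n := by exact_mod_cast hln
    linarith
  set K := n / w
  let E : (Fin (r + 1) → ℕ) × (Fin (r + 1) → ℕ) → Finset (Perm (Fin n)) := fun P =>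
    univ.filter (fun π => l - (h + m) * (big T P.1 P.2).card ≤ hits (region n w T P.1 P.2) π)
  have hsub : univ.filter (fun π : Perm (Fin n) => l ≤ longestSubseq (Av (basis m)) π) ⊆
      (seqs r K ×ˢ seqs r K).biUnion E := by
    intro π hπ
    obtain ⟨e, s, he, hs, hs2, hs3⟩ := exists_subseq π hl (mem_filter.1 hπ).2
    obtain ⟨X, hX, Y, hY, hXY⟩ := exists_seqs (w := w) T hh hr π e s he hs hs2 hs3
    refine mem_biUnion.2 ⟨(X, Y), mem_product.2 ⟨hX, hY⟩, ?_⟩
    simp only [E, mem_filter, mem_univ, true_and]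
    omega
  have hcard : ((univ.filter (fun π : Perm (Fin n) => l ≤ longestSubseq (Av (basis m)) π)).card : ℝ)
      ≤ ∑ P ∈ seqs r K ×ˢ seqs r K, ((E P).card : ℝ) := by
    exact_mod_cast (card_le_card hsub).trans card_biUnion_le
  have hterm : ∀ P ∈ seqs r K ×ˢ seqs r K, ((E P).card : ℝ) * (1 + t) ^ l ≤
      n.factorial * Real.exp (t * (β * ((K : ℝ) + r))) := by
    intro P hP
    obtain ⟨hX, hY⟩ := mem_product.1 hP
    set b := (h + m) * (big T P.1 P.2).card with hb
    have h3 := tail_bound (region n w T P.1 P.2) (k := l - b) (l := l) (Nat.sub_le _ _) hln ht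
    have h4 := exponent_le (n := n) hX hY hw hD hβ h1 h2
    have h5 : (1 + t) ^ l ≤ (1 + t) ^ (l - b) * Real.exp (t * b) := by
      calc (1 + t) ^ l ≤ (1 + t) ^ (l - b + b) := pow_le_pow_right₀ (by linarith) (by omega)
        _ = (1 + t) ^ (l - b) * (1 + t) ^ b := pow_add _ _ _
        _ ≤ (1 + t) ^ (l - b) * Real.exp (t * b) := by
          apply mul_le_mul_of_nonneg_left _ (by positivity)
          rw [mul_comm, Real.exp_nat_mul]
          apply pow_le_pow_left₀ (by linarith)
          linarith [Real.add_one_le_exp t]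
    calc ((E P).card : ℝ) * (1 + t) ^ l
        ≤ ((E P).card : ℝ) * ((1 + t) ^ (l - b) * Real.exp (t * b)) :=
          mul_le_mul_of_nonneg_left h5 (by positivity)
      _ = (((E P).card : ℝ) * (1 + t) ^ (l - b)) * Real.exp (t * b) := by ring
      _ ≤ (n.factorial * Real.exp (t * (region n w T P.1 P.2).card / ((n : ℝ) - l)))
            * Real.exp (t * b) := mul_le_mul_of_nonneg_right h3 (by positivity)
      _ = n.factorial * Real.exp (t * ((b : ℝ) + (region n w T P.1 P.2).card / ((n : ℝ) - l))) := by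
          rw [mul_assoc, ← Real.exp_add]
          congr 2
          ring
      _ ≤ _ := by
          apply mul_le_mul_of_nonneg_left _ (by positivity)
          apply Real.exp_le_exp.2
          apply mul_le_mul_of_nonneg_left _ ht
          rw [hb, Nat.cast_mul]
          exact h4
  have hcnt : (((seqs r K ×ˢ seqs r K).card : ℕ) : ℝ) ≤ 4 ^ (K + r + 1) := by
    rw [card_product]
    have := Nat.mul_le_mul (card_seqs r K) (card_seqs r K)
    rw [← mul_pow] at this
    exact_mod_cast this
  calc _ ≤ (∑ P ∈ seqs r K ×ˢ seqs r K, ((E P).card : ℝ)) * (1 + t) ^ l :=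
        mul_le_mul_of_nonneg_right hcard (by positivity)
    _ ≤ ∑ P ∈ seqs r K ×ˢ seqs r K, n.factorial * Real.exp (t * (β * ((K : ℝ) + r))) := by
        rw [sum_mul]
        exact sum_le_sum hterm
    _ ≤ _ := by
        rw [sum_const, nsmul_eq_mul]
        exact mul_le_mul_of_nonneg_right hcnt (by positivity)

end Pool.Agent.MP_cd0eb5_co
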