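import Pool.Agent.MP_cd0eb5_co.Grid

namespace Pool.Agent.MP_cd0eb5_co

open Finset Equiv Filter
open scoped ENNReal

lemma prob_bound {n m q : ℕ} (hm : m = 1000000) (hq : 200000 ≤ q) (h1 : n < q ^ 2)
    (h2 : (q - 1) ^ 2 ≤ n) :
    (n : ℝ) * ((univ.filter
      (fun π : Perm (Fin n) => 1200 * q ≤ longestSubseq (Av (basis m)) π)).card : ℝ)
      ≤ n.factorial := by
  have hqR : (200000 : ℝ) ≤ q := by exact_mod_cast hq
  have h1R : (n : ℝ) < (q : ℝ) ^ 2 := by exact_mod_cast h1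
  have h2R : ((q : ℝ) - 1) ^ 2 ≤ n := by
    have : ((q - 1 : ℕ) : ℝ) = (q : ℝ) - 1 := by
      rw [Nat.cast_sub (by omega)]; simp
    rw [← this]; exact_mod_cast h2
  have hln : 1200 * q < n := by
    have : ((1200 * q : ℕ) : ℝ) < n := by
      push_cast
      nlinarith
    exact_mod_cast this
  obtain ⟨r, hr1, hr2⟩ : ∃ r : ℕ, 1200 * q ≤ r * 100000 ∧ r * 100000 ≤ 1200 * q + 100000 :=
    ⟨1200 * q / 100000 + 1, by omega, by omega⟩
  have hb := union_bound (n := n) (m := m) (l := 1200 * q) (h := 100000) (w := q) (r := r)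
    (T := 2100) (β := 1061) (t := 1 / 10) (by omega) hln (by norm_num) (by omega) hr1
    (by norm_num) (by norm_num) (by rw [hm]; norm_num) (by push_cast; nlinarith)
  set N : ℝ := ((univ.filter
      (fun π : Perm (Fin n) => 1200 * q ≤ longestSubseq (Av (basis m)) π)).card : ℝ)
  have hN : 0 ≤ N := by positivity
  obtain ⟨K, hK, hKq⟩ : ∃ K : ℕ, n / q = K ∧ K ≤ q := by
    refine ⟨n / q, rfl, ?_⟩
    apply Nat.div_le_of_le_mul
    rw [← sq]; exact h1.le
  rw [hK] at hb
  have hKR : (K : ℝ) ≤ q := by exact_mod_cast hKq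
  have hrR : (r : ℝ) * 100000 ≤ 1200 * q + 100000 := by exact_mod_cast hr2
  have e1 : (4 : ℝ) ^ (K + r + 1) ≤ Real.exp (((K + r + 1 : ℕ) : ℝ) * 1.3863) := by
    rw [Real.exp_nat_mul]
    apply pow_le_pow_left₀ (by norm_num)
    have h3 : (4 : ℝ) = Real.exp (2 * Real.log 2) := by
      rw [show (2 : ℝ) * Real.log 2 = ((2 : ℕ) : ℝ) * Real.log 2 by norm_num, Real.exp_nat_mul,
        Real.exp_log (by norm_num)]
      norm_num
    rw [h3]
    apply Real.exp_le_exp.2
    have := Real.log_two_lt_d9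
    linarith
  have e2 : Real.exp (((1200 * q : ℕ) : ℝ) * (1 / 11)) ≤ (1 + 1 / 10 : ℝ) ^ (1200 * q) := by
    rw [Real.exp_nat_mul]
    apply pow_le_pow_left₀ (by positivity)
    have h3 := Real.add_one_le_exp (-(1 / 11))
    rw [Real.exp_neg] at h3
    have h4 := Real.exp_pos (1 / 11)
    rw [le_inv_comm₀ (by norm_num) h4] at h3
    linarith
  have e3 : (n : ℝ) ≤ Real.exp ((q : ℝ) / 5) := by
    have h3 := Real.pow_div_factorial_le_exp ((q : ℝ) / 5) (by positivity) 3
    have h4 : ((Nat.factorial 3 : ℕ) : ℝ) = 6 := by norm_num [Nat.factorial]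
    rw [h4] at h3
    have h5 : (q : ℝ) ^ 2 ≤ ((q : ℝ) / 5) ^ 3 / 6 := by
      have : ((q : ℝ) / 5) ^ 3 / 6 = (q : ℝ) ^ 2 * (q / 750) := by ring
      rw [this]
      apply le_mul_of_one_le_right (by positivity)
      linarith
    linarith
  have hF : (0 : ℝ) < n.factorial := by positivity
  have e4 : N * Real.exp (((1200 * q : ℕ) : ℝ) * (1 / 11)) ≤
      n.factorial * Real.exp (((K + r + 1 : ℕ) : ℝ) * 1.3863 + 1 / 10 * (1061 * ((K : ℝ) + r))) := by
    calc _ ≤ N * (1 + 1 / 10 : ℝ) ^ (1200 * q) := mul_le_mul_of_nonneg_left e2 hN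
      _ ≤ _ := hb
      _ ≤ Real.exp (((K + r + 1 : ℕ) : ℝ) * 1.3863) *
          (n.factorial * Real.exp (1 / 10 * (1061 * ((K : ℝ) + r)))) :=
        mul_le_mul_of_nonneg_right e1 (by positivity)
      _ = _ := by rw [Real.exp_add]; ring
  have e5 : Real.exp ((q : ℝ) / 5) *
      Real.exp (((K + r + 1 : ℕ) : ℝ) * 1.3863 + 1 / 10 * (1061 * ((K : ℝ) + r))) ≤
      Real.exp (((1200 * q : ℕ) : ℝ) * (1 / 11)) := by
    rw [← Real.exp_add]
    apply Real.exp_le_exp.2
    push_cast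
    linarith
  have hE := Real.exp_pos (((1200 * q : ℕ) : ℝ) * (1 / 11))
  apply le_of_mul_le_mul_right _ hE
  calc (n : ℝ) * N * Real.exp (((1200 * q : ℕ) : ℝ) * (1 / 11))
      = (n : ℝ) * (N * Real.exp (((1200 * q : ℕ) : ℝ) * (1 / 11))) := by ring
    _ ≤ Real.exp ((q : ℝ) / 5) * (n.factorial *
        Real.exp (((K + r + 1 : ℕ) : ℝ) * 1.3863 + 1 / 10 * (1061 * ((K : ℝ) + r)))) :=
      mul_le_mul e3 e4 (by positivity) (by positivity)
    _ = n.factorial * (Real.exp ((q : ℝ) / 5) *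
        Real.exp (((K + r + 1 : ℕ) : ℝ) * 1.3863 + 1 / 10 * (1061 * ((K : ℝ) + r)))) := by ring
    _ ≤ _ := mul_le_mul_of_nonneg_left e5 hF.le

lemma mean_le {n m q : ℕ} (hm : m = 1000000) (hq : 200000 ≤ q) (h1 : n < q ^ 2)
    (h2 : (q - 1) ^ 2 ≤ n) : meanLongestSubseq (Av (basis m)) n ≤ 1200 * q + 1 := by
  classical
  have hF : (0 : ℝ) < n.factorial := by positivity
  unfold meanLongestSubseq
  rw [div_le_iff₀ hF]
  have h3 : ∀ π : Perm (Fin n), (longestSubseq (Av (basis m)) π : ℝ) ≤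
      1200 * q + (if 1200 * q ≤ longestSubseq (Av (basis m)) π then (n : ℝ) else 0) := by
    intro π
    split_ifs with h
    · have : (longestSubseq (Av (basis m)) π : ℝ) ≤ n := by exact_mod_cast longestSubseq_le _ π
      have : (0 : ℝ) ≤ 1200 * q := by positivity
      linarith
    · have : (longestSubseq (Av (basis m)) π : ℝ) ≤ ((1200 * q : ℕ) : ℝ) := by
        exact_mod_cast (not_le.1 h).le
      push_cast at this
      linarith
  refine (sum_le_sum (fun π _ => h3 π)).trans ?_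
  rw [sum_add_distrib, ← sum_filter, sum_const, sum_const, card_univ, Fintype.card_perm,
    Fintype.card_fin, nsmul_eq_mul, nsmul_eq_mul]
  have := prob_bound hm hq h1 h2
  linarith

lemma eventually_mean_le {m : ℕ} (hm : m = 1000000) :
    ∀ᶠ n : ℕ in atTop, meanLongestSubseq (Av (basis m)) n / √(n : ℝ) ≤ 1201 := by
  filter_upwards [eventually_ge_atTop (200000 * 200000)] with n hn
  have h1 : 200000 ≤ Nat.sqrt n := Nat.le_sqrt.2 hn
  have h2 := mean_le (n := n) (q := Nat.sqrt n + 1) hm (by omega) (Nat.lt_succ_sqrt' n)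
    (by simpa using Nat.sqrt_le' n)
  have h3 : (Nat.sqrt n : ℝ) ≤ √(n : ℝ) := Real.nat_sqrt_le_real_sqrt
  have h4 : (200000 : ℝ) ≤ Nat.sqrt n := by exact_mod_cast h1
  rw [div_le_iff₀ (by linarith)]
  push_cast at h2
  linarith

lemma cConst_le {m : ℕ} (hm : m = 1000000) : cConst (Av (basis m)) < 361000 := by
  unfold cConst
  have h1 : limsup (fun n : ℕ => ENNReal.ofReal (meanLongestSubseq (Av (basis m)) n / √(n : ℝ)))
      atTop ≤ ENNReal.ofReal 1201 := by
    apply limsup_le_of_le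
    · isBoundedDefault
    · filter_upwards [eventually_mean_le hm] with n hn
      exact ENNReal.ofReal_le_ofReal hn
  calc _ ≤ (ENNReal.ofReal 1201 / 2) ^ 2 := by gcongr
    _ = ENNReal.ofReal ((1201 / 2) ^ 2) := by
        rw [ENNReal.ofReal_pow (by norm_num), ENNReal.ofReal_div_of_pos (by norm_num)]
        simp
    _ < ENNReal.ofReal 361000 := by
        rw [ENNReal.ofReal_lt_ofReal_iff (by norm_num)]
        norm_num
    _ = 361000 := by simp

lemma pow_le_factorial {m : ℕ} (hm : 1000000 ≤ m) : 361000 ^ m ≤ m.factorial := by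
  have h1 := Real.pow_div_factorial_le_exp (m : ℝ) (by positivity) m
  have hF : (0 : ℝ) < m.factorial := by positivity
  rw [div_le_iff₀ hF] at h1
  have h2 : Real.exp m = Real.exp 1 ^ m := by rw [← Real.exp_nat_mul, mul_one]
  have h3 : (361000 : ℝ) * Real.exp 1 ≤ m := by
    have := Real.exp_one_lt_d9
    have : (1000000 : ℝ) ≤ m := by exact_mod_cast hm
    linarith
  have h4 : ((361000 : ℝ) * Real.exp 1) ^ m ≤ (m : ℝ) ^ m := pow_le_pow_left₀ (by positivity) h3 m
  rw [mul_pow] at h4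
  have h5 : (361000 : ℝ) ^ m ≤ m.factorial := by
    apply le_of_mul_le_mul_right _ (pow_pos (Real.exp_pos 1) m)
    rw [h2] at h1
    linarith
  exact_mod_cast h5

lemma le_sConst {m : ℕ} (hm : 1000000 ≤ m) : 361000 ≤ sConst (Av (basis m)) := by
  unfold sConst
  apply le_limsup_of_frequently_le
  · rw [frequently_atTop]
    intro a
    have hm0 : 0 < m := by omega
    refine ⟨(a + 1) * m, by nlinarith, ?_⟩
    have h1 : 361000 ^ ((a + 1) * m) ≤ countOfLength (Av (basis m)) ((a + 1) * m) := by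
      refine le_trans ?_ (count_ge hm0)
      rw [mul_comm, pow_mul]
      exact Nat.pow_le_pow_left (pow_le_factorial hm) _
    have h2 : ((361000 : ℝ≥0∞)) ^ ((a + 1) * m) ≤
        (countOfLength (Av (basis m)) ((a + 1) * m) : ℝ≥0∞) := by exact_mod_cast h1
    have hne : (a + 1) * m ≠ 0 := by positivity
    calc (361000 : ℝ≥0∞) = ((361000 : ℝ≥0∞) ^ ((a + 1) * m)) ^ ((1 : ℝ) / ((a + 1) * m : ℕ)) := by
          rw [one_div, ENNReal.pow_rpow_inv_natCast hne]
      _ ≤ _ := ENNReal.rpow_le_rpow h2 (by positivity)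
  · isBoundedDefault

theorem main : ∃ B : Set AnyPerm, B.Finite ∧ B.Nonempty ∧ cConst (Av B) < sConst (Av B) := by
  obtain ⟨m, hm⟩ : ∃ m : ℕ, m = 1000000 := ⟨_, rfl⟩
  exact ⟨basis m, basis_finite m, basis_nonempty m, (cConst_le hm).trans_le (le_sConst hm.ge)⟩

end Pool.Agent.MP_cd0eb5_co
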